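import Pool.Agent.W2helper44.NR.Stm

/-!
# Project NR, piece SYM
-/

set_option autoImplicit false
set_option linter.unusedSectionVars false

namespace Pool.Agent.W2helper44.NR

open Module LinearMap

namespace H56

variable {K V : Type} [Field K] [CharZero K] [AddCommGroup V] [Module K V]
  [FiniteDimensional K V]

/-- The rank of a skew-symmetric form is even. -/
theorem even_rank (ω : V →ₗ[K] V →ₗ[K] K) (hnd : ∀ u, (∀ v, ω u v = 0) → u = 0)
    (m : End K V) (hm : ∀ u v, ω (m u) v = -ω (m v) u) : Even (finrank K (range m)) := by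
  obtain ⟨W, hW⟩ := Submodule.exists_isCompl (ker m)
  have h1 : finrank K (range m) = finrank K W := by
    have e1 := LinearMap.finrank_range_add_finrank_ker m
    have e2 := Submodule.finrank_add_eq_of_isCompl hW
    omega
  rw [h1]
  by_contra hodd
  rw [Nat.not_even_iff_odd] at hodd
  let b := finBasis K W
  let M : Matrix (Fin (finrank K W)) (Fin (finrank K W)) K :=
    Matrix.of fun i j => ω (m (b i : V)) (b j : V)
  have hMt : M.transpose = -M := by
    ext i j
    simp only [M, Matrix.transpose_apply, Matrix.of_apply, Matrix.neg_apply]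
    exact hm _ _
  have hdet : M.det = 0 := by
    have h2 : M.det = -M.det := by
      conv_lhs => rw [← Matrix.det_transpose, hMt, Matrix.det_neg, Fintype.card_fin,
        hodd.neg_one_pow, neg_one_mul]
    have h3 : (2 : K) * M.det = 0 := by
      linear_combination h2
    exact (mul_eq_zero.mp h3).resolve_left two_ne_zero
  obtain ⟨c, hc, hc0⟩ := Matrix.exists_vecMul_eq_zero_iff.mpr hdet
  set u : W := ∑ i, c i • b i with hu
  have h4 : ∀ j, ω (m (u : V)) (b j : V) = 0 := by
    intro j
    have h5 := congrFun hc0 j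
    simp only [Matrix.vecMul, dotProduct, M, Matrix.of_apply, Pi.zero_apply] at h5
    rw [hu, Submodule.coe_sum, map_sum, map_sum, LinearMap.sum_apply, ← h5]
    refine Finset.sum_congr rfl fun i _ => ?_
    rw [Submodule.coe_smul, map_smul, map_smul, LinearMap.smul_apply, smul_eq_mul]
  have h5 : ∀ w : W, ω (m (u : V)) (w : V) = 0 := by
    intro w
    have hw : (w : V) = ∑ j, b.repr w j • (b j : V) := by
      conv_lhs => rw [← b.sum_repr w]
      rw [Submodule.coe_sum]
      rfl
    rw [hw, map_sum]
    refine Finset.sum_eq_zero fun j _ => ?_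
    rw [map_smul, h4 j, smul_zero]
  have h6 : m (u : V) = 0 := by
    apply hnd
    intro v
    have hv : v ∈ ker m ⊔ W := by
      rw [hW.sup_eq_top]
      exact Submodule.mem_top
    obtain ⟨k, hk, w, hw, rfl⟩ := Submodule.mem_sup.mp hv
    rw [map_add, h5 ⟨w, hw⟩, add_zero, hm, LinearMap.mem_ker.mp hk, map_zero,
      LinearMap.zero_apply, neg_zero]
  have h7 : (u : V) ∈ ker m ⊓ W := ⟨LinearMap.mem_ker.mpr h6, u.2⟩
  rw [hW.inf_eq_bot, Submodule.mem_bot] at h7
  have h8 : u = 0 := Subtype.ext h7
  apply hc
  have h9 := Fintype.linearIndependent_iff.mp b.linearIndependent c (hu.symm.trans h8)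
  exact funext h9

/-- The operators which commute with the commutant of `J`. -/
def Cen (J : Submodule K (End K V)) (A : End K V) : Prop :=
  ∀ x : End K V, (∀ y ∈ J, x * y = y * x) → x * A = A * x

theorem Cen.of_mem {J : Submodule K (End K V)} {y : End K V} (hy : y ∈ J) : Cen J y :=
  fun _ hx => hx y hy

theorem Cen.one {J : Submodule K (End K V)} : Cen J (1 : End K V) := fun x _ => by
  rw [mul_one, one_mul]

theorem Cen.mul {J : Submodule K (End K V)} {A B : End K V} (hA : Cen J A) (hB : Cen J B) :
    Cen J (A * B) := fun x hx => by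
  rw [← mul_assoc, hA x hx, mul_assoc, hB x hx, mul_assoc]

theorem Cen.add {J : Submodule K (End K V)} {A B : End K V} (hA : Cen J A) (hB : Cen J B) :
    Cen J (A + B) := fun x hx => by
  rw [mul_add, add_mul, hA x hx, hB x hx]

theorem Cen.sub {J : Submodule K (End K V)} {A B : End K V} (hA : Cen J A) (hB : Cen J B) :
    Cen J (A - B) := fun x hx => by
  rw [mul_sub, sub_mul, hA x hx, hB x hx]

theorem Cen.eq_zero {J : Submodule K (End K V)} {S : Submodule K V} (hI : Iso J S)
    {A : End K V} (hA : Cen J A) (h : ∀ s ∈ S, A s = 0) : A = 0 := by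
  ext v
  rw [LinearMap.zero_apply]
  refine Submodule.span_induction (p := fun v _ => A v = 0) ?_ ?_ ?_ ?_ (hI.span v)
  · rintro w ⟨x, hx, s, hs, rfl⟩
    have h1 := LinearMap.congr_fun (hA x hx) s
    rw [Module.End.mul_apply, Module.End.mul_apply] at h1
    rw [← h1, h s hs, map_zero]
  · exact map_zero A
  · intro a b _ _ ha hb
    rw [map_add, ha, hb, add_zero]
  · intro c a _ ha
    rw [map_smul, ha, smul_zero]

/-- The component of `J` which maps the line of `q` to the line of `p`. -/
theorem exists_e {J : Submodule K (End K V)} {S : Submodule K V} (hI : Iso J S)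
    (hJ : ∀ y ∈ J, ∀ z ∈ J, y * z - z * y ∈ J) {D : End K V} (hD : D ∈ J) (hDD : D * D = 1)
    {p q : V} (hp : p ∈ S) (hq : q ∈ S) (hp0 : p ≠ 0) (hq0 : q ≠ 0) (hDp : D p = p)
    (hDq : D q = -q) (hspan : ∀ s ∈ S, ∃ α β : K, s = α • p + β • q) :
    ∃ e ∈ J, e q = p ∧ e p = 0 := by
  have hy : ∃ y ∈ J, y q ∉ Submodule.span K {q} := by
    by_contra hcon
    push Not at hcon
    rcases hI.minimal (Submodule.span K {q}) ((Submodule.span_singleton_le_iff_mem _ _).mpr hq)
      (by
        intro y hy s hs
        obtain ⟨c, rfl⟩ := Submodule.mem_span_singleton.mp hs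
        rw [map_smul]
        exact Submodule.smul_mem _ _ (hcon y hy)) with h | h
    · exact hq0 (Submodule.span_singleton_eq_bot.mp h)
    · rw [← h] at hp
      obtain ⟨c, hc⟩ := Submodule.mem_span_singleton.mp hp
      have h1 : D p = -p := by
        rw [← hc, map_smul, hDq, smul_neg]
      rw [hDp] at h1
      have h2 : (2 : K) • p = 0 := by
        rw [two_smul]
        nth_rewrite 1 [h1]
        exact neg_add_cancel p
      exact hp0 ((smul_eq_zero.mp h2).resolve_left two_ne_zero)
  obtain ⟨y, hyJ, hyq⟩ := hy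
  obtain ⟨α, β, hαβ⟩ := hspan (y q) (hI.stable y hyJ q hq)
  have hα : α ≠ 0 := by
    intro h
    apply hyq
    rw [hαβ, h, zero_smul, zero_add]
    exact Submodule.smul_mem _ _ (Submodule.mem_span_singleton_self q)
  have h1 := hJ D hD y hyJ
  have h2 := hJ D hD _ h1
  have h3 : D * (D * y - y * D) - (D * y - y * D) * D = (2 : K) • (y - D * y * D) := by
    have e1 : D * (D * y) = y := by rw [← mul_assoc, hDD, one_mul]
    have e2 : y * D * D = y := by rw [mul_assoc, hDD, mul_one]
    rw [mul_sub, sub_mul, e1, e2, two_smul, ← mul_assoc]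
    abel
  rw [h3] at h2
  have h4 : y - D * y * D ∈ J := by
    have := J.smul_mem (2 : K)⁻¹ h2
    rwa [smul_smul, inv_mul_cancel₀ (two_ne_zero : (2 : K) ≠ 0), one_smul] at this
  have h5 : (1 + D) * y * (1 - D) ∈ J := by
    have e : (1 + D) * y * (1 - D) = (y - D * y * D) + (D * y - y * D) := by
      rw [add_mul, one_mul, mul_sub, mul_one, add_mul]
      abel
    rw [e]
    exact J.add_mem h4 h1
  refine ⟨(4 * α)⁻¹ • ((1 + D) * y * (1 - D)), J.smul_mem _ h5, ?_, ?_⟩
  · have e1 : (1 - D) q = (2 : K) • q := by
      rw [LinearMap.sub_apply, Module.End.one_apply, hDq, two_smul, sub_neg_eq_add]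
    have e2 : (1 + D) (y q) = (2 * α) • p := by
      rw [hαβ, LinearMap.add_apply, Module.End.one_apply, map_add, map_smul, map_smul, hDp, hDq]
      module
    rw [LinearMap.smul_apply, Module.End.mul_apply, Module.End.mul_apply, e1, map_smul, map_smul,
      e2, smul_smul, smul_smul]
    have h6 : (4 * α)⁻¹ * 2 * (2 * α) = 1 := by
      field_simp
      norm_num
    rw [h6, one_smul]
  · have e1 : (1 - D) p = 0 := by
      rw [LinearMap.sub_apply, Module.End.one_apply, hDp, sub_self]
    rw [LinearMap.smul_apply, Module.End.mul_apply, e1, map_zero, smul_zero]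

/-- Two square-zero operators `e`, `f` with `e f + f e = 1` which commute with `n`. -/
theorem rank_two {e f n : End K V} (hee : e * e = 0) (hff : f * f = 0) (hef : e * f + f * e = 1)
    (hne : n * e = e * n) (hnf : n * f = f * n) :
    finrank K (range n) = 2 * finrank K (range (n * e)) := by
  have hz : ∀ x, e x = 0 → f x = 0 → x = 0 := by
    intro x hx hx'
    have h1 := LinearMap.congr_fun hef x
    rw [LinearMap.add_apply, Module.End.mul_apply, Module.End.mul_apply, hx, hx', map_zero,
      map_zero, add_zero, Module.End.one_apply] at h1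
    exact h1.symm
  have hez : ∀ x ∈ range (n * e), e x = 0 := by
    rintro x ⟨y, rfl⟩
    rw [hne, ← Module.End.mul_apply, ← mul_assoc, hee, zero_mul, LinearMap.zero_apply]
  have hfz : ∀ x ∈ range (n * f), f x = 0 := by
    rintro x ⟨y, rfl⟩
    rw [hnf, ← Module.End.mul_apply, ← mul_assoc, hff, zero_mul, LinearMap.zero_apply]
  have hsup : range n = range (n * e) ⊔ range (n * f) := by
    apply le_antisymm
    · rintro x ⟨y, rfl⟩
      have h1 : n y = (n * e) (f y) + (n * f) (e y) := by
        have h2 := LinearMap.congr_fun hef y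
        rw [LinearMap.add_apply, Module.End.mul_apply, Module.End.mul_apply,
          Module.End.one_apply] at h2
        rw [Module.End.mul_apply, Module.End.mul_apply, ← map_add, h2]
      rw [h1]
      exact Submodule.add_mem_sup (LinearMap.mem_range_self _ _) (LinearMap.mem_range_self _ _)
    · apply sup_le
      · rintro x ⟨y, rfl⟩
        exact LinearMap.mem_range_self n (e y)
      · rintro x ⟨y, rfl⟩
        exact LinearMap.mem_range_self n (f y)
  have hinf : range (n * e) ⊓ range (n * f) = ⊥ := by
    rw [eq_bot_iff]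
    rintro x ⟨h1, h2⟩
    exact hz x (hez x h1) (hfz x h2)
  have hle1 : finrank K (range (n * e)) ≤ finrank K (range (n * f)) := by
    have hmap : ∀ x ∈ range (n * e), f x ∈ range (n * f) := by
      rintro x ⟨y, rfl⟩
      refine ⟨e y, ?_⟩
      rw [hnf, Module.End.mul_apply, Module.End.mul_apply]
    refine LinearMap.finrank_le_finrank_of_injective (f := f.restrict hmap) ?_
    rw [← LinearMap.ker_eq_bot, eq_bot_iff]
    rintro ⟨x, hx⟩ hx'
    have h1 : f x = 0 := congrArg Subtype.val (LinearMap.mem_ker.mp hx')
    exact Subtype.ext (hz x (hez x hx) h1)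
  have hle2 : finrank K (range (n * f)) ≤ finrank K (range (n * e)) := by
    have hmap : ∀ x ∈ range (n * f), e x ∈ range (n * e) := by
      rintro x ⟨y, rfl⟩
      refine ⟨f y, ?_⟩
      rw [hne, Module.End.mul_apply, Module.End.mul_apply]
    refine LinearMap.finrank_le_finrank_of_injective (f := e.restrict hmap) ?_
    rw [← LinearMap.ker_eq_bot, eq_bot_iff]
    rintro ⟨x, hx⟩ hx'
    have h1 : e x = 0 := congrArg Subtype.val (LinearMap.mem_ker.mp hx')
    exact Subtype.ext (hz x h1 (hfz x hx))
  have h1 := Submodule.finrank_sup_add_finrank_inf_eq (range (n * e)) (range (n * f))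
  rw [hinf, finrank_bot, ← hsup] at h1
  omega

end H56

open H56

theorem p_SYM : P_SYM := by
  intro K V _ _ _ _ _ ω J S D n hI hS halt hnd hJ hskew hDJ hDD hn hnJ
  have hanti : ∀ u v, ω u v = -ω v u := by
    intro u v
    have h1 := halt (u + v)
    rw [map_add ω, LinearMap.add_apply, map_add, map_add, halt u, halt v, zero_add,
      add_zero] at h1
    exact eq_neg_of_add_eq_zero_left h1
  have hDD' : ∀ v, D (D v) = v := fun v => LinearMap.congr_fun hDD v
  -- `D` is not a scalar on `S`
  have hnot : ∀ c : K, (∀ s ∈ S, D s = c • s) → c ≠ 0 → False := by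
    intro c hc hc0
    have h1 : D - c • (1 : End K V) = 0 := by
      refine Cen.eq_zero hI (A := D - c • (1 : End K V)) ?_ ?_
      · refine (Cen.of_mem hDJ).sub ?_
        intro x _
        rw [mul_smul_comm, smul_mul_assoc, mul_one, one_mul]
      · intro s hs
        rw [LinearMap.sub_apply, LinearMap.smul_apply, Module.End.one_apply, hc s hs, sub_self]
    have h2 : ∀ v, D v = c • v := fun v => by
      have := LinearMap.congr_fun (sub_eq_zero.mp h1) v
      rwa [LinearMap.smul_apply, Module.End.one_apply] at this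
    apply hI.ne
    rw [eq_bot_iff]
    intro s _
    refine hnd s fun v => ?_
    have h3 := hskew D hDJ s v
    rw [h2, h2, map_smul, map_smul, LinearMap.smul_apply, ← smul_add, smul_eq_mul] at h3
    have h4 := (mul_eq_zero.mp h3).resolve_left hc0
    have h5 : (2 : K) * ω s v = 0 := by rw [two_mul]; exact h4
    exact (mul_eq_zero.mp h5).resolve_left two_ne_zero
  obtain ⟨s, hs, hs0⟩ : ∃ s ∈ S, s + D s ≠ 0 := by
    by_contra hcon
    push Not at hcon
    exact hnot (-1) (fun s hs => by
      rw [neg_one_smul]
      exact eq_neg_of_add_eq_zero_right (hcon s hs)) (neg_ne_zero.mpr one_ne_zero)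
  obtain ⟨t, ht, ht0⟩ : ∃ t ∈ S, t - D t ≠ 0 := by
    by_contra hcon
    push Not at hcon
    exact hnot 1 (fun s hs => by
      rw [one_smul]
      exact (sub_eq_zero.mp (hcon s hs)).symm) one_ne_zero
  set p := s + D s with hp
  set q := t - D t with hq
  have hpS : p ∈ S := S.add_mem hs (hI.stable D hDJ s hs)
  have hqS : q ∈ S := S.sub_mem ht (hI.stable D hDJ t ht)
  have hDp : D p = p := by rw [hp, map_add, hDD', add_comm]
  have hDq : D q = -q := by rw [hq, map_sub, hDD', neg_sub]
  have hind : LinearIndependent K ![p, q] := by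
    rw [LinearIndependent.pair_iff]
    intro a b hab
    have h1 : a • p - b • q = 0 := by
      have h2 := congrArg D hab
      rw [map_add, map_smul, map_smul, hDp, hDq, map_zero, smul_neg, ← sub_eq_add_neg] at h2
      exact h2
    have h2 : (2 * a) • p = 0 := by
      have : (2 * a) • p = (a • p + b • q) + (a • p - b • q) := by module
      rw [this, hab, h1, add_zero]
    have h3 : (2 * b) • q = 0 := by
      have : (2 * b) • q = (a • p + b • q) - (a • p - b • q) := by module
      rw [this, hab, h1, sub_zero]
    constructor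
    · have := (smul_eq_zero.mp h2).resolve_right hs0
      exact (mul_eq_zero.mp this).resolve_left two_ne_zero
    · have := (smul_eq_zero.mp h3).resolve_right ht0
      exact (mul_eq_zero.mp this).resolve_left two_ne_zero
  have hspan : ∀ s ∈ S, ∃ α β : K, s = α • p + β • q := by
    intro v hv
    have h1 : Submodule.span K (Set.range ![p, q]) = S := by
      apply Submodule.eq_of_le_of_finrank_le
      · rw [Submodule.span_le]
        rintro x ⟨i, rfl⟩
        fin_cases i
        · exact hpS
        · exact hqS
      · rw [hS, finrank_span_eq_card hind, Fintype.card_fin]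
    rw [← h1, Matrix.range_cons, Matrix.range_cons, Matrix.range_empty, Set.union_empty,
      Set.singleton_union, Submodule.mem_span_pair] at hv
    obtain ⟨α, β, h⟩ := hv
    exact ⟨α, β, h.symm⟩
  obtain ⟨e, heJ, heq, hep⟩ := exists_e hI hJ hDJ hDD hpS hqS hs0 ht0 hDp hDq hspan
  obtain ⟨f, hfJ, hfp, hfq⟩ := exists_e hI hJ (J.neg_mem hDJ) (by rw [neg_mul_neg, hDD])
    hqS hpS ht0 hs0 (by rw [LinearMap.neg_apply, hDq, neg_neg]) (by
      rw [LinearMap.neg_apply, hDp]) (fun v hv => by
        obtain ⟨α, β, h⟩ := hspan v hv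
        exact ⟨β, α, by rw [h, add_comm]⟩)
  have hzero : ∀ A : End K V, Cen J A → A p = 0 → A q = 0 → A = 0 := by
    intro A hA h1 h2
    refine hA.eq_zero hI fun v hv => ?_
    obtain ⟨α, β, h⟩ := hspan v hv
    rw [h, map_add, map_smul, map_smul, h1, h2, smul_zero, smul_zero, add_zero]
  have he := Cen.of_mem heJ
  have hf := Cen.of_mem hfJ
  have hee : e * e = 0 := hzero _ (he.mul he) (by rw [Module.End.mul_apply, hep, map_zero])
    (by rw [Module.End.mul_apply, heq, hep])
  have hff : f * f = 0 := hzero _ (hf.mul hf) (by rw [Module.End.mul_apply, hfp, hfq])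
    (by rw [Module.End.mul_apply, hfq, map_zero])
  have hef : e * f + f * e = 1 := by
    rw [← sub_eq_zero]
    refine hzero _ (((he.mul hf).add (hf.mul he)).sub Cen.one) ?_ ?_
    · rw [LinearMap.sub_apply, LinearMap.add_apply, Module.End.mul_apply, Module.End.mul_apply,
        Module.End.one_apply, hfp, heq, hep, map_zero, add_zero, sub_self]
    · rw [LinearMap.sub_apply, LinearMap.add_apply, Module.End.mul_apply, Module.End.mul_apply,
        Module.End.one_apply, hfq, heq, hfp, map_zero, zero_add, sub_self]
  rw [rank_two hee hff hef (hnJ e heJ) (hnJ f hfJ)]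
  have h1 := even_rank ω hnd (n * e) (by
    intro u v
    rw [Module.End.mul_apply, Module.End.mul_apply]
    have h2 := hn (e u) v
    have h3 := hskew e heJ u (n v)
    have h4 : e (n v) = n (e v) := (LinearMap.congr_fun (hnJ e heJ) v).symm
    rw [h4] at h3
    have h5 := hanti u (n (e v))
    linear_combination h2 - h3 + h5)
  obtain ⟨k, hk⟩ := h1
  exact ⟨k, by omega⟩

end Pool.Agent.W2helper44.NR
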